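import Mathlib
import Pool.Agent.Lib.helper23.Star
import Pool.Agent.Lib.helper23.LipDef2

set_option autoImplicit false

namespace Pool.Agent.Results.MP_05d620_an.Main

open Pool.Agent.Lib.helper23 LF PT FB

theorem result : ∃ (M : Type) (_ : MetricSpace M) (o : M),
    Octahedral (FreeSp o) ∧ ¬ Octahedral (CProj (FreeSp o) (Fin 3 → ℝ)) :=
  ⟨Star.St, inferInstance, Star.o, Star.oct isFree, Star.not_oct isFree⟩

end Pool.Agent.Results.MP_05d620_an.Main
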